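import Pool.Agent.H85.LSP.Nr

/-!
# LSP, module KAP: the kernel
-/

set_option autoImplicit false

namespace Pool.LSP

open Polynomial Filter Topology Finset
open scoped ComplexConjugate

namespace KAPaux

/-- Evaluation of the polynomial at a root. -/
theorem root_sum {P : ℤ[X]} {α : ℂ} (h : α ∈ Rt P) :
    ∑ i ∈ range (P.natDegree + 1), (P.coeff i : ℂ) * α ^ i = 0 := by
  unfold Rt at h
  have h2 := (mem_roots'.1 h).2
  rw [IsRoot, eval_map, eval₂_eq_sum_range] at h2
  simpa using h2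

theorem conj_mem {P : ℤ[X]} {α : ℂ} (h : α ∈ Rt P) : conj α ∈ Rt P := by
  have h1 := root_sum h
  unfold Rt at h ⊢
  rw [mem_roots'] at h ⊢
  refine ⟨h.1, ?_⟩
  rw [IsRoot, eval_map, eval₂_eq_sum_range]
  have h2 := congrArg conj h1
  rw [map_sum, map_zero] at h2
  rw [← h2]
  refine Finset.sum_congr rfl fun i _ => ?_
  simp

theorem ne_zero_of_mem {P : ℤ[X]} (h0 : P.coeff 0 ≠ 0) {α : ℂ} (h : α ∈ Rt P) : α ≠ 0 := by
  rintro rfl
  have h1 := root_sum h
  rw [Finset.sum_range_succ'] at h1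
  simp at h1
  exact h0 h1

theorem sum_rec {P : ℤ[X]} (w : ℂ → ℂ) (T : Finset ℂ) (h0 : ∀ α ∈ T, α ≠ 0)
    (hT : ∀ α ∈ T, ∑ i ∈ range (P.natDegree + 1), (P.coeff i : ℂ) * α ^ i = 0) (n : ℤ) :
    ∑ i ∈ range (P.natDegree + 1), (P.coeff i : ℂ) * ∑ α ∈ T, w α * α ^ (n + i - 1) = 0 := by
  simp_rw [Finset.mul_sum]
  rw [Finset.sum_comm]
  refine Finset.sum_eq_zero fun α hα => ?_
  have e : ∀ i ∈ range (P.natDegree + 1), (P.coeff i : ℂ) * (w α * α ^ (n + i - 1)) =
      w α * α ^ (n - 1) * ((P.coeff i : ℂ) * α ^ i) := by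
    intro i _
    have e1 : n + (i : ℤ) - 1 = (n - 1) + i := by ring
    rw [e1, zpow_add₀ (h0 α hα), zpow_natCast]
    ring
  rw [Finset.sum_congr rfl e, ← Finset.mul_sum, hT α hα, mul_zero]

theorem vand (T : Finset ℂ) (c f : ℂ → ℂ) (hf : Set.InjOn f T) {α₀ : ℂ} (h0 : α₀ ∈ T)
    (hc : c α₀ ≠ 0) (d : ℕ) (hd : T.card ≤ d) :
    ∃ i : ℕ, i < d ∧ ∑ α ∈ T, c α * f α ^ i ≠ 0 := by
  classical
  by_contra hcon
  push Not at hcon
  have key : ∀ q : ℂ[X], q.natDegree < d → ∑ α ∈ T, c α * q.eval (f α) = 0 := by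
    intro q hq
    have e : ∀ α ∈ T, c α * q.eval (f α) =
        ∑ i ∈ range (q.natDegree + 1), q.coeff i * (c α * f α ^ i) := by
      intro α _
      rw [eval_eq_sum_range, Finset.mul_sum]
      exact Finset.sum_congr rfl fun i _ => by ring
    rw [Finset.sum_congr rfl e, Finset.sum_comm]
    refine Finset.sum_eq_zero fun i hi => ?_
    rw [← Finset.mul_sum, hcon i, mul_zero]
    have := Finset.mem_range.1 hi
    omega
  have hq : (∏ β ∈ T.erase α₀, (X - C (f β)) : ℂ[X]).natDegree < d := by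
    rw [natDegree_prod_of_monic _ _ (fun β _ => monic_X_sub_C _)]
    simp only [natDegree_X_sub_C, Finset.sum_const, smul_eq_mul, mul_one]
    rw [Finset.card_erase_of_mem h0]
    have : 0 < T.card := Finset.card_pos.2 ⟨_, h0⟩
    omega
  have h1 := key _ hq
  rw [Finset.sum_eq_single α₀] at h1
  · rw [mul_eq_zero, eval_prod, Finset.prod_eq_zero_iff] at h1
    rcases h1 with h1 | ⟨β, hβ, h1⟩
    · exact hc h1
    · have hβ2 := Finset.mem_erase.1 hβ
      simp only [eval_sub, eval_X, eval_C, sub_eq_zero] at h1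
      exact hβ2.1 (hf hβ2.2 h0 h1.symm)
  · intro β hβ hne
    have : (∏ γ ∈ T.erase α₀, (X - C (f γ)) : ℂ[X]).eval (f β) = 0 := by
      rw [eval_prod]
      exact Finset.prod_eq_zero (Finset.mem_erase.2 ⟨hne, hβ⟩) (by simp)
    rw [this, mul_zero]
  · intro h
    exact absurd h0 h

theorem conj_sum (T : Finset ℂ) (w : ℂ → ℂ) (hT : ∀ α ∈ T, conj α ∈ T)
    (hw : ∀ α, w (conj α) = conj (w α)) (n : ℤ) :
    conj (∑ α ∈ T, w α * α ^ n) = ∑ α ∈ T, w α * α ^ n := by
  rw [map_sum]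
  refine Finset.sum_nbij' (fun α => conj α) (fun α => conj α) hT hT ?_ ?_ ?_
  · intro α _
    exact Complex.conj_conj α
  · intro α _
    exact Complex.conj_conj α
  · intro α _
    rw [hw, map_mul, map_zpow₀]

theorem exists_lam (S : Finset ℂ) (hS : S.Nonempty) (h0 : ∀ α ∈ S, α ≠ 0)
    (h1 : ∀ α ∈ S, ‖α‖ ≠ 1) :
    ∃ lam : ℝ, 1 < lam ∧ ∀ α ∈ S, (‖α‖ < 1 → ‖α‖ ≤ lam⁻¹) ∧ (1 < ‖α‖ → ‖α⁻¹‖ ≤ lam⁻¹) := by
  obtain ⟨a, ha, hmin⟩ := Finset.exists_min_image S (fun α => max ‖α‖ ‖α‖⁻¹) hS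
  have hlam : 1 < max ‖a‖ ‖a‖⁻¹ := by
    have hpos : 0 < ‖a‖ := norm_pos_iff.2 (h0 a ha)
    rcases lt_or_gt_of_ne (h1 a ha) with h | h
    · exact lt_max_of_lt_right ((one_lt_inv₀ hpos).2 h)
    · exact lt_max_of_lt_left h
  refine ⟨max ‖a‖ ‖a‖⁻¹, hlam, fun α hα => ?_⟩
  have hpos : 0 < ‖α‖ := norm_pos_iff.2 (h0 α hα)
  have hm := hmin α hα
  have hlp : 0 < max ‖a‖ ‖a‖⁻¹ := by linarith
  constructor
  · intro h
    have h2 : ‖α‖ ≤ ‖α‖⁻¹ := by
      have := (one_lt_inv₀ hpos).2 h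
      linarith
    have h3 : max ‖a‖ ‖a‖⁻¹ ≤ ‖α‖⁻¹ := by
      rw [max_eq_right h2] at hm
      exact hm
    rw [le_inv_comm₀ hpos hlp]
    exact h3
  · intro h
    have h2 : ‖α‖⁻¹ ≤ ‖α‖ := by
      have := (inv_lt_one₀ hpos).2 h
      linarith
    have h3 : max ‖a‖ ‖a‖⁻¹ ≤ ‖α‖ := by
      rw [max_eq_left h2] at hm
      exact hm
    rw [norm_inv, inv_le_inv₀ hpos hlp]
    exact h3

end KAPaux

open KAPaux in
/-- KAP -/
theorem t_kap (hEUL : EULStmt) : KAPStmt := by
  classical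
  intro P hmon hnd hhyp hc0 hout hin
  obtain ⟨β₀, hβ₀, hβ₁⟩ := hout
  obtain ⟨γ₀, hγ₀, hγ₁⟩ := hin
  set S : Finset ℂ := (Rt P).toFinset with hS
  set d := P.natDegree with hd
  have hmemS : ∀ α, α ∈ S ↔ α ∈ Rt P := fun α => Multiset.mem_toFinset
  have hcard : S.card = d := by
    rw [hS, Multiset.toFinset_card_of_nodup hnd]
    unfold Rt
    rw [← (IsAlgClosed.splits (P.map (Int.castRingHom ℂ))).natDegree_eq_card_roots,
      natDegree_map_eq_of_injective (RingHom.injective_int _)]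
  have hS0 : ∀ α ∈ S, α ≠ 0 := fun α hα => ne_zero_of_mem hc0 ((hmemS α).1 hα)
  have hS1 : ∀ α ∈ S, ‖α‖ ≠ 1 := fun α hα => hhyp α ((hmemS α).1 hα)
  have hSc : ∀ α ∈ S, conj α ∈ S := fun α hα => (hmemS _).2 (conj_mem ((hmemS α).1 hα))
  have hSs : ∀ α ∈ S, ∑ i ∈ range (P.natDegree + 1), (P.coeff i : ℂ) * α ^ i = 0 :=
    fun α hα => root_sum ((hmemS α).1 hα)
  have hγS : γ₀ ∈ S := (hmemS _).2 hγ₀
  have hβS : β₀ ∈ S := (hmemS _).2 hβ₀
  have hdpos : 1 ≤ d := by
    rw [← hcard]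
    exact Finset.card_pos.2 ⟨_, hγS⟩
  obtain ⟨w, hw0, hwc, hws⟩ := hEUL S
  have himg : S.image (fun β => conj β) = S := by
    ext α
    rw [Finset.mem_image]
    constructor
    · rintro ⟨β, hβ, rfl⟩
      exact hSc β hβ
    · intro hα
      exact ⟨conj α, hSc α hα, Complex.conj_conj α⟩
  have hwc' : ∀ α, w (conj α) = conj (w α) := fun α => hwc α himg
  obtain ⟨lam, hlam, hlb⟩ := exists_lam S ⟨_, hγS⟩ hS0 hS1
  set TI : Finset ℂ := S.filter (fun α => ‖α‖ < 1) with hTI
  set TO : Finset ℂ := S.filter (fun α => 1 < ‖α‖) with hTO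
  have hTIc : ∀ α ∈ TI, conj α ∈ TI := by
    intro α hα
    rw [hTI, Finset.mem_filter] at hα ⊢
    exact ⟨hSc α hα.1, by rw [RCLike.norm_conj]; exact hα.2⟩
  have hTOc : ∀ α ∈ TO, conj α ∈ TO := by
    intro α hα
    rw [hTO, Finset.mem_filter] at hα ⊢
    exact ⟨hSc α hα.1, by rw [RCLike.norm_conj]; exact hα.2⟩
  set FI : ℤ → ℂ := fun n => ∑ α ∈ TI, w α * α ^ (n - 1) with hFI
  set FO : ℤ → ℂ := fun n => ∑ α ∈ TO, w α * α ^ (n - 1) with hFO
  have hFIO : ∀ n, FI n + FO n = ∑ α ∈ S, w α * α ^ (n - 1) := by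
    intro n
    have e : TO = S.filter (fun α => ¬ ‖α‖ < 1) := by
      rw [hTO]
      refine Finset.filter_congr fun α hα => ?_
      constructor
      · intro h
        linarith
      · intro h
        exact lt_of_le_of_ne (not_lt.1 h) (Ne.symm (hS1 α hα))
    rw [hFI, hFO]
    simp only
    rw [e, hTI]
    exact Finset.sum_filter_add_sum_filter_not S _ _
  set kC : ℤ → ℂ := fun n => if 1 ≤ n then FI n else - FO n with hkC
  have hkconj : ∀ n, conj (kC n) = kC n := by
    intro n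
    rw [hkC]
    simp only
    split_ifs with h
    · exact conj_sum TI w hTIc hwc' _
    · rw [map_neg]
      exact congrArg Neg.neg (conj_sum TO w hTOc hwc' _)
  have hkre : ∀ n, ((kC n).re : ℂ) = kC n := fun n => Complex.conj_eq_iff_re.1 (hkconj n)
  -- the recurrence
  have hIrec : ∀ n : ℤ, ∑ i ∈ range (P.natDegree + 1), (P.coeff i : ℂ) * FI (n + i) = 0 :=
    fun n => sum_rec w TI (fun α hα => hS0 α (Finset.mem_filter.1 hα).1)
      (fun α hα => hSs α (Finset.mem_filter.1 hα).1) n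
  have hOrec : ∀ n : ℤ, ∑ i ∈ range (P.natDegree + 1), (P.coeff i : ℂ) * FO (n + i) = 0 :=
    fun n => sum_rec w TO (fun α hα => hS0 α (Finset.mem_filter.1 hα).1)
      (fun α hα => hSs α (Finset.mem_filter.1 hα).1) n
  have hrec : ∀ n : ℤ, ∑ i ∈ range (P.natDegree + 1), (P.coeff i : ℂ) * kC (n + i) =
      if n = 0 then 1 else 0 := by
    intro n
    rcases le_or_gt 1 n with hn | hn
    · rw [if_neg (by omega), ← hIrec n]
      refine Finset.sum_congr rfl fun i _ => ?_
      rw [hkC]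
      simp only
      rw [if_pos (by omega)]
    · have e : ∀ i ∈ range (P.natDegree + 1), (P.coeff i : ℂ) * kC (n + i) =
          (P.coeff i : ℂ) * (if n + (i : ℤ) = d then 1 else 0) -
            (P.coeff i : ℂ) * FO (n + i) := by
        intro i hi
        have hi2 := Finset.mem_range.1 hi
        rw [hkC]
        simp only
        split_ifs with h1 h2 h2
        · have h3 := hws (d - 1) (by omega)
          have h4 := hFIO (n + i)
          rw [if_pos (by omega)] at h3
          have e2 : ∑ α ∈ S, w α * α ^ (n + (i : ℤ) - 1) = ∑ α ∈ S, w α * α ^ (d - 1) := by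
            refine Finset.sum_congr rfl fun α _ => ?_
            rw [← zpow_natCast]
            congr 2
            omega
          rw [e2, h3] at h4
          rw [← h4]
          ring
        · have h3 := hws (n + (i : ℤ) - 1).toNat (by omega)
          have h4 := hFIO (n + i)
          rw [if_neg (by omega)] at h3
          have e2 : ∑ α ∈ S, w α * α ^ (n + (i : ℤ) - 1) =
              ∑ α ∈ S, w α * α ^ (n + (i : ℤ) - 1).toNat := by
            refine Finset.sum_congr rfl fun α _ => ?_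
            rw [← zpow_natCast]
            congr 2
            omega
          rw [e2, h3] at h4
          have h5 : FI (n + i) = - FO (n + i) := by linear_combination h4
          rw [h5]
          ring
        · omega
        · ring
      rw [Finset.sum_congr rfl e, Finset.sum_sub_distrib, hOrec n, sub_zero]
      split_ifs with h0
      · subst h0
        rw [Finset.sum_eq_single d]
        · have : P.coeff d = 1 := hmon
          rw [this]
          simp
        · intro i _ hne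
          rw [if_neg (by omega), mul_zero]
        · intro h
          exact absurd (Finset.mem_range.2 (by omega)) h
      · refine Finset.sum_eq_zero fun i hi => ?_
        have hi2 := Finset.mem_range.1 hi
        rw [if_neg (by omega), mul_zero]
  have hlp : 0 < lam := by linarith
  have hli : 0 < lam⁻¹ := inv_pos.2 hlp
  have hli1 : lam⁻¹ ≤ 1 := (inv_le_one₀ hlp).2 hlam.le
  set B : ℝ := ∑ α ∈ S, ‖w α‖ with hB
  have hB0 : 0 ≤ B := Finset.sum_nonneg fun _ _ => norm_nonneg _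
  refine ⟨fun n => (kC n).re, (B + 1) * lam, lam, ?_⟩
  refine ⟨hdpos, by positivity, hlam, ?_, ?_, ?_, ?_⟩
  · -- decay
    intro n
    refine (Complex.abs_re_le_norm _).trans ?_
    rw [hkC]
    simp only
    split_ifs with h
    · obtain ⟨m, rfl⟩ : ∃ m : ℕ, n = m + 1 := ⟨(n - 1).toNat, by omega⟩
      have h1 : ‖FI ((m : ℤ) + 1)‖ ≤ B * lam⁻¹ ^ m := by
        rw [hFI]
        simp only
        refine (norm_sum_le _ _).trans ?_
        rw [hB, Finset.sum_mul]
        have h2 : ∑ α ∈ TI, ‖w α * α ^ ((m : ℤ) + 1 - 1)‖ ≤ ∑ α ∈ TI, ‖w α‖ * lam⁻¹ ^ m := by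
          refine Finset.sum_le_sum fun α hα => ?_
          have hα2 := Finset.mem_filter.1 hα
          rw [norm_mul, add_sub_cancel_right, zpow_natCast, norm_pow]
          exact mul_le_mul_of_nonneg_left
            (pow_le_pow_left₀ (norm_nonneg _) ((hlb α hα2.1).1 hα2.2) _) (norm_nonneg _)
        exact h2.trans (Finset.sum_le_sum_of_subset_of_nonneg (Finset.filter_subset _ _)
          (fun _ _ _ => by positivity))
      refine h1.trans ?_
      have e : lam ^ (-|((m : ℤ) + 1)|) = lam⁻¹ ^ (m + 1) := by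
        rw [abs_of_nonneg (by positivity), zpow_neg, ← inv_zpow]
        norm_cast
      rw [e, pow_succ]
      have e2 : (B + 1) * lam * (lam⁻¹ ^ m * lam⁻¹) = (B + 1) * lam⁻¹ ^ m := by
        field_simp
      rw [e2]
      have : 0 < lam⁻¹ ^ m := by positivity
      nlinarith
    · obtain ⟨m, rfl⟩ : ∃ m : ℕ, n = -m := ⟨(-n).toNat, by omega⟩
      have h1 : ‖FO (-(m : ℤ))‖ ≤ B * lam⁻¹ ^ m := by
        rw [hFO]
        simp only
        refine (norm_sum_le _ _).trans ?_
        rw [hB, Finset.sum_mul]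
        have h2 : ∑ α ∈ TO, ‖w α * α ^ (-(m : ℤ) - 1)‖ ≤ ∑ α ∈ TO, ‖w α‖ * lam⁻¹ ^ m := by
          refine Finset.sum_le_sum fun α hα => ?_
          have hα2 := Finset.mem_filter.1 hα
          have e3 : -(m : ℤ) - 1 = -((m + 1 : ℕ) : ℤ) := by push_cast; ring
          rw [norm_mul, e3, zpow_neg, ← inv_zpow, zpow_natCast, norm_pow]
          have h3 := (hlb α hα2.1).2 hα2.2
          have h4 : ‖α⁻¹‖ ^ (m + 1) ≤ lam⁻¹ ^ (m + 1) := pow_le_pow_left₀ (norm_nonneg _) h3 _
          have h5 : lam⁻¹ ^ (m + 1) ≤ lam⁻¹ ^ m :=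
            pow_le_pow_of_le_one hli.le hli1 (Nat.le_succ m)
          exact mul_le_mul_of_nonneg_left (h4.trans h5) (norm_nonneg _)
        exact h2.trans (Finset.sum_le_sum_of_subset_of_nonneg (Finset.filter_subset _ _)
          (fun _ _ _ => by positivity))
      rw [norm_neg]
      refine h1.trans ?_
      have e : lam ^ (-|(-(m : ℤ))|) = lam⁻¹ ^ m := by
        rw [abs_neg, abs_of_nonneg (by positivity), zpow_neg, ← inv_zpow, zpow_natCast]
      rw [e]
      have h6 : 0 < lam⁻¹ ^ m := by positivity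
      have h7 : B ≤ (B + 1) * lam := by nlinarith
      exact mul_le_mul_of_nonneg_right h7 h6.le
  · -- the equation
    intro n
    have h := hrec n
    have h2 : ((Pr P (fun n => (kC n).re) n : ℝ) : ℂ) = if n = 0 then 1 else 0 := by
      rw [← h]
      unfold Pr
      push_cast
      refine Finset.sum_congr rfl fun i _ => ?_
      rw [hkre]
    have h3 := congrArg Complex.re h2
    rw [Complex.ofReal_re] at h3
    rw [h3]
    split_ifs <;> simp
  · -- positive side
    intro x hx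
    have hγT : γ₀ ∈ TI := Finset.mem_filter.2 ⟨hγS, hγ₁⟩
    obtain ⟨i, hi, hne⟩ := vand TI (fun α => w α * α ^ (x - 1)) id (Set.injOn_id _) hγT
      (mul_ne_zero (hw0 _ hγS) (zpow_ne_zero _ (hS0 _ hγS))) d
      (hcard ▸ Finset.card_le_card (Finset.filter_subset _ _))
    refine ⟨i, hi, fun h0 => hne ?_⟩
    have h1 : kC (x + i) = 0 := by
      rw [← hkre, h0, Complex.ofReal_zero]
    rw [hkC] at h1
    simp only at h1
    rw [if_pos (by omega)] at h1
    rw [← h1, hFI]
    simp only [id]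
    refine Finset.sum_congr rfl fun α hα => ?_
    have e : x + (i : ℤ) - 1 = (x - 1) + i := by ring
    rw [e, zpow_add₀ (hS0 α (Finset.mem_filter.1 hα).1), zpow_natCast]
    ring
  · -- negative side
    intro x hx
    have hβT : β₀ ∈ TO := Finset.mem_filter.2 ⟨hβS, hβ₁⟩
    obtain ⟨i, hi, hne⟩ := vand TO (fun α => w α * α ^ (x - 1)) (fun α => α⁻¹)
      (fun _ _ _ _ h => inv_injective h) hβT
      (mul_ne_zero (hw0 _ hβS) (zpow_ne_zero _ (hS0 _ hβS))) d
      (hcard ▸ Finset.card_le_card (Finset.filter_subset _ _))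
    refine ⟨i, hi, fun h0 => hne ?_⟩
    have h1 : kC (x - i) = 0 := by
      rw [← hkre, h0, Complex.ofReal_zero]
    rw [hkC] at h1
    simp only at h1
    rw [if_neg (by omega), neg_eq_zero] at h1
    rw [← h1, hFO]
    simp only
    refine Finset.sum_congr rfl fun α hα => ?_
    have e : x - (i : ℤ) - 1 = (x - 1) + (-(i : ℤ)) := by ring
    rw [e, zpow_add₀ (hS0 α (Finset.mem_filter.1 hα).1), zpow_neg, ← inv_zpow, zpow_natCast]
    ring

end Pool.LSP
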